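import Pool.Agent.Helper69.LW.Basic

/-!
# MP_687a20_mp : module UP, the upper bound from the statements of the modules CO, PR, TR
-/

open MeasureTheory Set Filter Topology
open scoped ContDiff

namespace LeakyWire

theorem N_nonneg (w : ℝ × ℝ → ℝ) : 0 ≤ N w := by
  unfold N
  exact integral_nonneg fun p => sq_nonneg _

theorem int_d1_sq_le_V {w : ℝ × ℝ → ℝ} (hw : Test w) : ∫ p in hp, d1 w p ^ 2 ≤ V w := by
  unfold V
  refine setIntegral_mono_on ?_ ?_ hp_meas fun p _ => ?_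
  · exact (hw.test_d1.nice.sq).integrableOn hp
  · exact ((hw.test_d1.nice.sq).add (hw.nice_D.sq)).integrableOn hp
  · have := sq_nonneg (D w p)
    linarith

theorem slice0_cont {w : ℝ × ℝ → ℝ} (hw : Test w) : Continuous fun t => w (0, t) :=
  hw.cont.comp (by fun_prop)

theorem slice_supp {w : ℝ × ℝ → ℝ} (hw : Test w) : HasCompactSupport fun t => w (0, t) := by
  obtain ⟨L, hL0, hL⟩ := hw.box
  refine HasCompactSupport.intro (K := Icc (-L) L) isCompact_Icc fun t ht => ?_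
  refine hL (0, t) (Or.inr ?_)
  rw [mem_Icc, ← abs_le] at ht
  exact not_le.mp ht

/-- the algebra at `δ = 0` -/
theorem upper_alg {S τ Y B e a : ℝ} (hS : 0 < S) (hτ : 0 < τ) (hτ1 : τ ≤ 1)
    (he : e = S * τ ^ 2 / 8) (ha : a = 12 + S ^ 2 / 8) (haτ : 0 ≤ 1 - a * τ)
    (hY1 : S - S * τ ≤ Y) (hY2 : Y ≤ S) (hB : B ^ 2 = τ ^ 2 * Y / 4) :
    (1 / (2 * e) + 0) * (9 / 4 * 0) + (1 + τ ^ 2) * ((e / 2 + 0) * (2 + 0)) + B ^ 2 * (1 + τ ^ 2) +
      4 * τ * B * Real.sqrt ((e / 2 + 0) * (1 / 2 + 0) * 4) + (-(τ ^ 2 * Y / 2) + 2 * τ * B * 0) +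
      e ^ 2 * (1 - a * τ) * ((1 / (2 * e) + 0) * (2 + 0) + B ^ 2 * 4) < 0 := by
  have he0 : 0 < e := by rw [he]; positivity
  have h1 : (e / 2 + 0) * (1 / 2 + 0) * 4 = e := by ring
  rw [h1]
  have h2 : 4 * τ * B * Real.sqrt e ≤ 6 * τ * e := by
    refine abs_le_of_sq_le_sq' ?_ (by positivity) |>.2
    have h3 : (4 * τ * B * Real.sqrt e) ^ 2 = 16 * τ ^ 2 * B ^ 2 * e := by
      rw [mul_pow, Real.sq_sqrt he0.le]
      ring
    rw [h3, hB]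
    have h4 : τ ^ 2 * Y ≤ 8 * e := by
      rw [he]
      nlinarith [sq_nonneg τ]
    have h5 : 16 * τ ^ 2 * (τ ^ 2 * Y / 4) * e = 4 * τ ^ 2 * e * (τ ^ 2 * Y) := by ring
    rw [h5]
    have h6 : 4 * τ ^ 2 * e * (τ ^ 2 * Y) ≤ 4 * τ ^ 2 * e * (8 * e) :=
      mul_le_mul_of_nonneg_left h4 (by positivity)
    nlinarith [mul_pos (pow_pos hτ 2) (pow_pos he0 2)]
  have h7 : e ^ 2 * (1 - a * τ) * ((1 / (2 * e) + 0) * (2 + 0) + B ^ 2 * 4) ≤
      (1 - a * τ) * e + 8 * e ^ 3 := by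
    have h8 : e ^ 2 * (1 - a * τ) * ((1 / (2 * e) + 0) * (2 + 0) + B ^ 2 * 4) =
        (1 - a * τ) * e + (1 - a * τ) * (e ^ 2 * (τ ^ 2 * Y)) := by
      rw [hB]
      field_simp
      ring
    rw [h8]
    have h9 : τ ^ 2 * Y ≤ 8 * e := by
      rw [he]
      nlinarith [sq_nonneg τ]
    have ha0 : 0 < a := by rw [ha]; positivity
    have h10 : (1 - a * τ) * (e ^ 2 * (τ ^ 2 * Y)) ≤ (1 - a * τ) * (e ^ 2 * (8 * e)) :=
      mul_le_mul_of_nonneg_left (mul_le_mul_of_nonneg_left h9 (by positivity)) haτ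
    have h11 : (1 - a * τ) * (e ^ 2 * (8 * e)) ≤ 1 * (e ^ 2 * (8 * e)) :=
      mul_le_mul_of_nonneg_right (by nlinarith) (by positivity)
    linarith
  have h12 : 8 * e ^ 3 ≤ e * (τ * (S ^ 2 / 8)) := by
    have h13 : 8 * e ^ 3 = e * (τ ^ 4 * (S ^ 2 / 8)) := by
      rw [he]
      ring
    rw [h13]
    refine mul_le_mul_of_nonneg_left (mul_le_mul_of_nonneg_right ?_ (by positivity)) he0.le
    calc τ ^ 4 = τ * τ ^ 3 := by ring
      _ ≤ τ * 1 := mul_le_mul_of_nonneg_left (pow_le_one₀ hτ.le hτ1) hτ.le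
      _ = τ := mul_one τ
  have h14 : B ^ 2 * (1 + τ ^ 2) - τ ^ 2 * Y / 2 ≤ -(2 * e * (1 - τ)) + 2 * e * τ ^ 2 := by
    have h15 : B ^ 2 * (1 + τ ^ 2) - τ ^ 2 * Y / 2 = -(τ ^ 2 * Y / 4) + τ ^ 2 * (τ ^ 2 * Y) / 4 := by
      rw [hB]
      ring
    rw [h15]
    have h16 : τ ^ 2 * (S - S * τ) ≤ τ ^ 2 * Y := mul_le_mul_of_nonneg_left hY1 (by positivity)
    have h17 : τ ^ 2 * Y ≤ 8 * e := by
      rw [he]
      nlinarith [sq_nonneg τ]
    have h18 : τ ^ 2 * (S - S * τ) = 8 * e * (1 - τ) := by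
      rw [he]
      ring
    have h19 : τ ^ 2 * (τ ^ 2 * Y) ≤ τ ^ 2 * (8 * e) := mul_le_mul_of_nonneg_left h17 (by positivity)
    linarith
  have h20 : τ ^ 2 * e ≤ τ * e := by
    have : τ ^ 2 ≤ τ := by nlinarith
    exact mul_le_mul_of_nonneg_right this he0.le
  have h21 : a * τ * e = 12 * τ * e + e * (τ * (S ^ 2 / 8)) := by
    rw [ha]
    ring
  have h22 : 0 < τ * e := by positivity
  nlinarith

theorem upper_of (hSS : 0 < SS)
    (hWle : ∀ w, Test w → Odd2 w → W w ^ 2 ≤ SS * V w)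
    (hNle : ∀ w, Test w → Odd2 w → N w ≤ 4 * V w)
    (hnear : ∀ δ : ℝ, 0 < δ → ∃ w, Test w ∧ Odd2 w ∧ V w = 1 ∧ SS - δ ≤ W w ^ 2)
    (hexg : ∀ ε δ : ℝ, 0 < ε → 0 < δ →
      ∃ g : ℝ → ℝ, ContDiff ℝ ∞ g ∧ HasCompactSupport g ∧ g 0 = 1 ∧
        |(∫ s in Ioi (0 : ℝ), g s ^ 2) - 1 / (2 * ε)| ≤ δ ∧
        |(∫ s in Ioi (0 : ℝ), deriv g s ^ 2) - ε / 2| ≤ δ)
    (hexphi : ∀ (δ : ℝ), 0 < δ → ∀ h : ℝ → ℝ, Continuous h → HasCompactSupport h →
      ∃ φ : ℝ → ℝ, ContDiff ℝ ∞ φ ∧ HasCompactSupport φ ∧ (∀ t, φ (-t) = φ t) ∧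
        |φ 0 ^ 2 - 1| ≤ δ ∧ |(∫ t, φ t ^ 2) - 2| ≤ δ ∧ |(∫ t, deriv φ t ^ 2) - 1 / 2| ≤ δ ∧
        |(∫ t, deriv φ t * h t) + 1 / 2 * ∫ t, Real.sign t * gs t * h t| ≤ δ)
    (htest : ∀ (g φ : ℝ → ℝ) (w : ℝ × ℝ → ℝ), ContDiff ℝ ∞ g → HasCompactSupport g →
      ContDiff ℝ ∞ φ → HasCompactSupport φ → Test w → ∀ b : ℝ,
      Test (fun p : ℝ × ℝ => g p.1 * φ p.2 + b * w p))
    (htN : ∀ (g φ : ℝ → ℝ) (w : ℝ × ℝ → ℝ), ContDiff ℝ ∞ g → HasCompactSupport g →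
      ContDiff ℝ ∞ φ → HasCompactSupport φ → (∀ t, φ (-t) = φ t) → Test w → Odd2 w → ∀ b : ℝ,
      N (fun p : ℝ × ℝ => g p.1 * φ p.2 + b * w p) =
        (∫ s in Ioi (0 : ℝ), g s ^ 2) * (∫ t, φ t ^ 2) + b ^ 2 * N w)
    (htq : ∀ (g φ : ℝ → ℝ) (w : ℝ × ℝ → ℝ), ContDiff ℝ ∞ g → HasCompactSupport g →
      ContDiff ℝ ∞ φ → HasCompactSupport φ → (∀ t, φ (-t) = φ t) → Test w → Odd2 w → ∀ b τ : ℝ,
      q τ (fun p : ℝ × ℝ => g p.1 * φ p.2 + b * w p) +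
          N (fun p : ℝ × ℝ => g p.1 * φ p.2 + b * w p) / 4 =
        (∫ s in Ioi (0 : ℝ), g s ^ 2) * ((∫ t, deriv φ t ^ 2) - φ 0 ^ 2 + (∫ t, φ t ^ 2) / 4) +
        (1 + τ ^ 2) * ((∫ s in Ioi (0 : ℝ), deriv g s ^ 2) * ∫ t, φ t ^ 2) +
        b ^ 2 * (V w + τ ^ 2 * ∫ p in hp, d1 w p ^ 2) +
        4 * τ * b * (∫ p in hp, deriv g p.1 * deriv φ p.2 * w p) +
        2 * τ * b * g 0 * ∫ t, deriv φ t * w (0, t))
    (htc : ∀ (g φ : ℝ → ℝ) (w : ℝ × ℝ → ℝ), ContDiff ℝ ∞ g → HasCompactSupport g →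
      ContDiff ℝ ∞ φ → HasCompactSupport φ → Test w →
      (∫ p in hp, deriv g p.1 * deriv φ p.2 * w p) ^ 2 ≤
        (∫ s in Ioi (0 : ℝ), deriv g s ^ 2) * (∫ t, deriv φ t ^ 2) * N w) :
    ∃ a τ₀ : ℝ, 0 < τ₀ ∧ ∀ τ, 0 < τ → τ < τ₀ → ∃ u, Test u ∧ 0 < N u ∧
      q τ u ≤ -((1 / 4 + (SS * τ ^ 2 / 8) ^ 2 * (1 - a * τ)) * N u) := by
  obtain ⟨a, ha⟩ : ∃ a : ℝ, a = 12 + SS ^ 2 / 8 := ⟨_, rfl⟩
  have ha0 : 1 < a := by
    have := sq_nonneg SS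
    rw [ha]
    linarith
  refine ⟨a, 1 / a, by positivity, fun τ hτ hτ0 => ?_⟩
  have haτ : 0 ≤ 1 - a * τ := by
    rw [lt_div_iff₀ (by linarith)] at hτ0
    linarith
  have hτ1 : τ ≤ 1 := by nlinarith
  obtain ⟨e, he⟩ : ∃ e : ℝ, e = SS * τ ^ 2 / 8 := ⟨_, rfl⟩
  have he0 : 0 < e := by rw [he]; positivity
  obtain ⟨w, hw, ho, hV, hW1⟩ := hnear (SS * τ) (by positivity)
  have hW2 : W w ^ 2 ≤ SS := by
    have := hWle w hw ho
    rwa [hV, mul_one] at this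
  have hN4 : N w ≤ 4 := by
    have := hNle w hw ho
    rw [hV] at this
    linarith
  have hN0 := N_nonneg w
  have hP : ∫ p in hp, d1 w p ^ 2 ≤ 1 := by
    rw [← hV]
    exact int_d1_sq_le_V hw
  obtain ⟨b, hb⟩ : ∃ b : ℝ, b = τ * W w / 2 := ⟨_, rfl⟩
  have hbb : |b| ^ 2 = τ ^ 2 * W w ^ 2 / 4 := by
    rw [sq_abs, hb]
    ring
  have halg := upper_alg hSS hτ hτ1 he ha haτ hW1 hW2 hbb
  -- choice of the small parameter
  have hF : Continuous fun δ : ℝ => (1 / (2 * e) + δ) * (9 / 4 * δ) +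
      (1 + τ ^ 2) * ((e / 2 + δ) * (2 + δ)) + |b| ^ 2 * (1 + τ ^ 2) +
      4 * τ * |b| * Real.sqrt ((e / 2 + δ) * (1 / 2 + δ) * 4) +
      (-(τ ^ 2 * W w ^ 2 / 2) + 2 * τ * |b| * δ) +
      e ^ 2 * (1 - a * τ) * ((1 / (2 * e) + δ) * (2 + δ) + |b| ^ 2 * 4) := by
    fun_prop
  have hG : Continuous fun δ : ℝ => min (1 / (2 * e) - δ) (1 - δ) := by fun_prop
  have hev := (hF.tendsto 0).eventually_lt_const halg
  have hG0 : (0 : ℝ) < min (1 / (2 * e) - 0) (1 - 0) := by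
    rw [sub_zero, sub_zero]
    exact lt_min (by positivity) one_pos
  have hev2 := (hG.tendsto 0).eventually_const_lt hG0
  obtain ⟨r, hr, hball⟩ := Metric.eventually_nhds_iff.mp (hev.and hev2)
  obtain ⟨δ, hδ⟩ : ∃ δ : ℝ, δ = r / 2 := ⟨_, rfl⟩
  have hδ0 : 0 < δ := by rw [hδ]; positivity
  have hδr : dist δ 0 < r := by
    rw [Real.dist_0_eq_abs, abs_of_pos hδ0, hδ]
    linarith
  obtain ⟨hF1, hG1⟩ := hball hδr
  have hδe : δ < 1 / (2 * e) := by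
    have := (lt_min_iff.mp hG1).1
    linarith
  have hδ1 : δ < 1 := by
    have := (lt_min_iff.mp hG1).2
    linarith
  -- the trial function
  obtain ⟨g, g1, g2, g3, g4, g5⟩ := hexg e δ he0 hδ0
  obtain ⟨φ, p1, p2, p3, p4, p5, p6, p7⟩ :=
    hexphi δ hδ0 (fun t => w (0, t)) (slice0_cont hw) (slice_supp hw)
  have hWdef : (∫ t, Real.sign t * gs t * w (0, t)) = W w := rfl
  rw [hWdef] at p7
  have hT := htest g φ w g1 g2 p1 p2 hw b
  have hNt := htN g φ w g1 g2 p1 p2 p3 hw ho b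
  have hqt := htq g φ w g1 g2 p1 p2 p3 hw ho b τ
  have hct := htc g φ w g1 g2 p1 p2 hw
  have hA'0 : 0 ≤ ∫ s in Ioi (0 : ℝ), deriv g s ^ 2 := integral_nonneg fun s => sq_nonneg _
  have hB'0 : 0 ≤ ∫ t, deriv φ t ^ 2 := integral_nonneg fun s => sq_nonneg _
  generalize (∫ s in Ioi (0 : ℝ), g s ^ 2) = A at *
  generalize (∫ s in Ioi (0 : ℝ), deriv g s ^ 2) = A' at *
  generalize (∫ t, φ t ^ 2) = B at *
  generalize (∫ t, deriv φ t ^ 2) = B' at *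
  generalize (∫ p in hp, deriv g p.1 * deriv φ p.2 * w p) = X at *
  generalize (∫ t, deriv φ t * w (0, t)) = Y at *
  generalize (∫ p in hp, d1 w p ^ 2) = P at *
  rw [abs_le] at g4 g5 p4 p5 p6 p7
  have hA0 : 0 < A := by linarith
  have hB0 : 0 < B := by linarith
  refine ⟨_, hT, ?_, ?_⟩
  · rw [hNt]
    have : 0 < A * B := by positivity
    have h2 : 0 ≤ b ^ 2 * N w := by positivity
    linarith
  · rw [← he]
    have hgoal : q τ (fun p : ℝ × ℝ => g p.1 * φ p.2 + b * w p) +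
        N (fun p : ℝ × ℝ => g p.1 * φ p.2 + b * w p) / 4 +
        e ^ 2 * (1 - a * τ) * N (fun p : ℝ × ℝ => g p.1 * φ p.2 + b * w p) ≤ 0 := by
      rw [hqt, hNt]
      refine le_trans ?_ hF1.le
      have hbsq : b ^ 2 = |b| ^ 2 := (sq_abs b).symm
      have t1 : A * (B' - φ 0 ^ 2 + B / 4) ≤ (1 / (2 * e) + δ) * (9 / 4 * δ) := by
        refine (mul_le_mul_of_nonneg_left (b := B' - φ 0 ^ 2 + B / 4) (c := 9 / 4 * δ) ?_ hA0.le).trans ?_
        · linarith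
        · exact mul_le_mul_of_nonneg_right (by linarith) (by positivity)
      have t2 : (1 + τ ^ 2) * (A' * B) ≤ (1 + τ ^ 2) * ((e / 2 + δ) * (2 + δ)) := by
        refine mul_le_mul_of_nonneg_left ?_ (by positivity)
        exact mul_le_mul (by linarith) (by linarith) hB0.le (by positivity)
      have t3 : b ^ 2 * (V w + τ ^ 2 * P) ≤ |b| ^ 2 * (1 + τ ^ 2) := by
        rw [hbsq, hV]
        refine mul_le_mul_of_nonneg_left ?_ (by positivity)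
        have : τ ^ 2 * P ≤ τ ^ 2 * 1 := mul_le_mul_of_nonneg_left hP (by positivity)
        linarith
      have t4 : 4 * τ * b * X ≤ 4 * τ * |b| * Real.sqrt ((e / 2 + δ) * (1 / 2 + δ) * 4) := by
        have hX : |X| ≤ Real.sqrt ((e / 2 + δ) * (1 / 2 + δ) * 4) := by
          refine Real.abs_le_sqrt (hct.trans ?_)
          have hB' : B' ≤ 1 / 2 + δ := by linarith
          exact mul_le_mul (mul_le_mul (by linarith) hB' hB'0 (by positivity)) hN4 hN0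
            (by positivity)
        calc 4 * τ * b * X ≤ |4 * τ * b * X| := le_abs_self _
          _ = 4 * τ * |b| * |X| := by
              rw [abs_mul, abs_mul, abs_mul, abs_of_pos hτ]
              norm_num
          _ ≤ _ := mul_le_mul_of_nonneg_left hX (by positivity)
      have t5 : 2 * τ * b * g 0 * Y ≤ -(τ ^ 2 * W w ^ 2 / 2) + 2 * τ * |b| * δ := by
        rw [g3]
        have h1 : 2 * τ * b * 1 * Y = -(τ ^ 2 * W w ^ 2 / 2) + 2 * τ * (b * (Y + 1 / 2 * W w)) := by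
          rw [hb]
          ring
        rw [h1]
        have h2 : b * (Y + 1 / 2 * W w) ≤ |b| * δ := by
          refine (le_abs_self _).trans ?_
          rw [abs_mul]
          exact mul_le_mul_of_nonneg_left (abs_le.mpr p7) (abs_nonneg b)
        have h3 : 2 * τ * (b * (Y + 1 / 2 * W w)) ≤ 2 * τ * (|b| * δ) :=
          mul_le_mul_of_nonneg_left h2 (by positivity)
        linarith
      have t6 : e ^ 2 * (1 - a * τ) * (A * B + b ^ 2 * N w) ≤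
          e ^ 2 * (1 - a * τ) * ((1 / (2 * e) + δ) * (2 + δ) + |b| ^ 2 * 4) := by
        refine mul_le_mul_of_nonneg_left ?_ (by positivity)
        refine add_le_add (mul_le_mul (by linarith) (by linarith) hB0.le (by positivity)) ?_
        rw [hbsq]
        exact mul_le_mul_of_nonneg_left hN4 (by positivity)
      linarith
    linarith

end LeakyWire
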